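import Pool.Agent.helper75.WB.SpecI

/-!
Project wb (MP_bb5cc8_nt), Part I, row ICC: the number of charts.
-/

set_option autoImplicit false

namespace Pool.Agent.WB

open Finset

theorem ICC : ICC_stmt := by
  intro Q hQ
  constructor
  · have h0 : (0 : ℤ) ≤ ⌊Q⌋ := Int.floor_nonneg.mpr (by linarith)
    have h1 : (Ch Q).card ≤ (Icc (-⌊Q⌋) ⌊Q⌋).card * (Icc (-⌊Q⌋) ⌊Q⌋).card := by
      unfold Ch
      exact (card_filter_le _ _).trans (card_product _ _).le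
    have h2 : (((Icc (-⌊Q⌋) ⌊Q⌋).card : ℕ) : ℝ) ≤ 2 * Q + 1 := by
      rw [Int.card_Icc]
      have e : (((⌊Q⌋ + 1 - -⌊Q⌋).toNat : ℕ) : ℝ) = 2 * (⌊Q⌋ : ℝ) + 1 := by
        have e1 : (((⌊Q⌋ + 1 - -⌊Q⌋).toNat : ℕ) : ℤ) = 2 * ⌊Q⌋ + 1 := by
          rw [Int.toNat_of_nonneg (by omega)]
          ring
        exact_mod_cast e1
      rw [e]
      have := Int.floor_le Q
      linarith
    have h3 : (0 : ℝ) ≤ (((Icc (-⌊Q⌋) ⌊Q⌋).card : ℕ) : ℝ) := Nat.cast_nonneg _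
    calc ((Ch Q).card : ℝ) ≤ (((Icc (-⌊Q⌋) ⌊Q⌋).card * (Icc (-⌊Q⌋) ⌊Q⌋).card : ℕ) : ℝ) := by
          exact_mod_cast h1
      _ = (((Icc (-⌊Q⌋) ⌊Q⌋).card : ℕ) : ℝ) ^ 2 := by push_cast; ring
      _ ≤ (2 * Q + 1) ^ 2 := pow_le_pow_left₀ h3 h2 2
  · refine ⟨(1, 0), mem_Ch.mpr ⟨?_, ?_, ?_⟩⟩
    · simpa using hQ
    · simp
      linarith
    · exact isCoprime_one_left

end Pool.Agent.WB
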