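import Pool.Agent.helper78.WB.SpecIIa

/-!
Project wb (MP_bb5cc8_nt), Part IIa, row SV: the form `G` vanishing on half of the vertices.
-/

set_option autoImplicit false

namespace Pool.Agent.WB

open MvPolynomial

/-- the coordinates of a vector in a box of exponent at most one -/
theorem SV_coord {N : ℕ} {ξ δ : ℝ} (hN : 1 ≤ N) (h1 : ξ + δ ≤ 1) {ζ : V3} (h : Box N ξ δ ζ) :
    ∀ i, |ζ i| ≤ (N : ℤ) := by
  have hN1 : (1 : ℝ) ≤ (N : ℝ) := by exact_mod_cast hN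
  have hp : (N : ℝ) ^ (ξ + δ) ≤ (N : ℝ) := by
    calc (N : ℝ) ^ (ξ + δ) ≤ (N : ℝ) ^ (1 : ℝ) := Real.rpow_le_rpow_of_exponent_le hN1 h1
      _ = (N : ℝ) := Real.rpow_one _
  obtain ⟨h0, h1', h2, -⟩ := h
  intro i
  have key : |((ζ i : ℤ) : ℝ)| ≤ (N : ℝ) := by
    fin_cases i
    · exact h0.trans hp
    · exact h1'.trans hp
    · exact h2
  have : ((|ζ i| : ℤ) : ℝ) ≤ ((N : ℤ) : ℝ) := by
    push_cast
    exact key
  exact_mod_cast this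

theorem SV (h1 : SAMP_stmt) (h2 : SG_stmt) (h3 : VAN_stmt) : SV_stmt := by
  classical
  intro ξ δ hξ hδ hsum
  obtain ⟨N₀, hN₀⟩ := h3 ξ δ hξ hδ
  refine ⟨max N₀ 1, ?_⟩
  intro N hN θ D K A B' F hD hDN hK hKθ hA hθ hbA hbB hF hinj hdeg
  have hN1 : 1 ≤ N := (le_max_right _ _).trans hN
  have hNN : N₀ ≤ N := (le_max_left _ _).trans hN
  obtain ⟨S, hSA, hSc, hB⟩ := h1 A B' (nbr A F) θ K hK hKθ
    (fun b hb => ⟨Finset.filter_subset _ _, hdeg b hb⟩)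
  have hS : 2 * S.card ≤ s3 D := by
    have e : K * (2 * S.card) ≤ K * s3 D := by
      calc K * (2 * S.card) = 2 * (S.card * K) := by ring
        _ ≤ 2 * (4 * A.card) := Nat.mul_le_mul_left _ hSc
        _ = 8 * A.card := by ring
        _ ≤ K * s3 D := hA
    exact Nat.le_of_mul_le_mul_left e (by omega)
  obtain ⟨G, hG0, hGh, hGc, hGS⟩ := h2 N D S hN1
    (fun ζ hζ => SV_coord hN1 hsum (hbA ζ (hSA hζ))) hS
  refine ⟨G, hG0, hGh, hGc, hB.trans (Nat.mul_le_mul_left _ (Finset.card_le_card ?_))⟩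
  intro b hb
  rw [Finset.mem_filter] at hb ⊢
  obtain ⟨hbB', hcard⟩ := hb
  refine ⟨hbB', ?_⟩
  obtain ⟨hbox, hmax⟩ := hbB b hbB'
  have hmemF : ∀ ζ ∈ nbr A F b ∩ S, (ζ, b) ∈ F ∧ ζ ∈ A ∧ ζ ∈ S := by
    intro ζ hζ
    rw [Finset.mem_inter] at hζ
    obtain ⟨hζ1, hζ2⟩ := hζ
    rw [nbr, Finset.mem_filter] at hζ1
    exact ⟨hζ1.2, hζ1.1, hζ2⟩
  refine hN₀ N hNN D hD hDN G hGh hGc b (SV_coord hN1 hsum hbox) hbox.2.2.2 hmax
    (nbr A F b ∩ S) ?_ ?_ ?_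
  · intro ζ hζ
    obtain ⟨hf, ha, hs⟩ := hmemF ζ hζ
    obtain ⟨q1, q2, q3⟩ := hF (ζ, b) hf
    exact ⟨hbA ζ ha, hGS ζ hs, q1, q2, q3⟩
  · intro ζ hζ ζ' hζ' e0 e1
    exact hinj ζ ζ' b (hmemF ζ hζ).1 (hmemF ζ' hζ').1 e0 e1
  · have hKpos : (0 : ℝ) < 2 * (K : ℝ) := by
      have : (1 : ℝ) ≤ (K : ℝ) := by exact_mod_cast hK
      linarith
    have hc : (θ : ℝ) ≤ 2 * (K : ℝ) * ((nbr A F b ∩ S).card : ℝ) := by exact_mod_cast hcard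
    have h4 : (N : ℝ) ^ (3 * δ) * D * (2 * K) ≤ ((nbr A F b ∩ S).card : ℝ) * (2 * K) := by
      calc (N : ℝ) ^ (3 * δ) * D * (2 * K) ≤ (θ : ℝ) := hθ
        _ ≤ 2 * (K : ℝ) * ((nbr A F b ∩ S).card : ℝ) := hc
        _ = ((nbr A F b ∩ S).card : ℝ) * (2 * K) := by ring
    exact le_of_mul_le_mul_right h4 hKpos

end Pool.Agent.WB
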